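import Pool.Agent.Q262.Ht.QuatMain

/-!
The cyclotomic polynomial of order `11 · 13 · 571 · 163307` has height at least `5`.
-/

set_option autoImplicit false

open Polynomial

namespace Pool.Agent.Results.MP_b29aa3_nt.HeightFive

open Q262.Hgt Q262.Quat

theorem result :
    (cyclotomic (11 * 13 * 571 * 163307) ℤ).coeff (163307 * 25137 + 53) = 5 ∧
      5 ≤ height (cyclotomic (11 * 13 * 571 * 163307) ℤ) ∧
      ¬ ∀ p q r s : ℕ, p.Prime → q.Prime → r.Prime → s.Prime → p < q → q < r → r < s →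
        ((s : ℤ) ≡ 1 [ZMOD p * q * r] ∨ (s : ℤ) ≡ -1 [ZMOD p * q * r]) →
        ((r : ℤ) ≡ 1 [ZMOD p * q] ∨ (r : ℤ) ≡ -1 [ZMOD p * q]) →
        ¬ (q : ℤ) ≡ -1 [ZMOD p] → height (cyclotomic (p * q * r * s) ℤ) = 2 := by
  have h1 : (cyclotomic (11 * 13 * 571 * 163307) ℤ).coeff (163307 * 25137 + 53) = 5 := by
    have e : 11 * 13 * 571 * 163307 = 81653 * 163307 := by norm_num
    rw [e]
    exact coeff_quat
  refine ⟨h1, height_quat, ?_⟩
  intro h
  have h2 := h 11 13 571 163307 (by norm_num) (by norm_num) (by norm_num) (by norm_num)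
    (by norm_num) (by norm_num) (by norm_num) (Or.inl (by decide)) (Or.inr (by decide))
    (by decide)
  have h3 := height_quat
  rw [h2] at h3
  norm_num at h3

end Pool.Agent.Results.MP_b29aa3_nt.HeightFive
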